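import Mathlib

/-! Periodic beams observed along several integer-speed lines: no number `m` of lines suffices. -/

open MeasureTheory Complex Set
open scoped Real

noncomputable section

namespace Pool.Agent.Results.MP_8d8cf3_an.NoUniversalNumberOfLines

/-- The beam solution
`u(t,x) = c₀⁺ + c₀⁻ t + ∑_{k ≠ 0} (c_k⁺ e^{i k² t} + c_k⁻ e^{-i k² t}) e^{i k x}`. -/
def beam (cp cm : ℤ → ℂ) (t x : ℝ) : ℂ :=
  cp 0 + cm 0 * t + ∑' k : ℤ, if k = 0 then 0 else
    (cp k * Complex.exp (Complex.I * (k : ℂ) ^ 2 * t) +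
      cm k * Complex.exp (-(Complex.I * (k : ℂ) ^ 2 * t))) * Complex.exp (Complex.I * k * x)

/-- The inverse inequality for the observations along the lines through the points `P i`
with speeds `a i` during time `T`, tested on finitely supported sequences only. -/
def InverseInequality {m : ℕ} (a : Fin m → ℤ) (P : Fin m → ℝ × ℝ) (T : ℝ) : Prop :=
  ∃ C : ℝ, 0 < C ∧ ∀ cp cm : ℤ → ℂ, (Function.support cp).Finite → (Function.support cm).Finite →
    ∑' k : ℤ, (‖cp k‖ ^ 2 + ‖cm k‖ ^ 2) ≤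
      C * ∑ i : Fin m, ∫ t in (0 : ℝ)..T, ‖beam cp cm ((P i).1 + t) ((P i).2 - a i * t)‖ ^ 2

/-- The odd `d`-periodic sequence. -/
def phi (d : ℕ) (k : ℤ) : ℤ :=
  if (d : ℤ) ∣ k - 1 then 1 else if (d : ℤ) ∣ k + 1 then -1 else 0

lemma phi_neg (d : ℕ) (hd : 3 ≤ d) (k : ℤ) : phi d (-k) = - phi d k := by
  unfold phi
  have e1 : (d : ℤ) ∣ -k - 1 ↔ (d : ℤ) ∣ k + 1 := by
    rw [show -k - 1 = -(k + 1) by ring, dvd_neg]
  have e2 : (d : ℤ) ∣ -k + 1 ↔ (d : ℤ) ∣ k - 1 := by
    rw [show -k + 1 = -(k - 1) by ring, dvd_neg]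
  rw [if_congr e1 rfl rfl, if_congr e2 rfl rfl]
  by_cases h1 : (d : ℤ) ∣ k - 1
  · by_cases h2 : (d : ℤ) ∣ k + 1
    · exfalso
      have h3 : (d : ℤ) ∣ (k + 1) - (k - 1) := dvd_sub h2 h1
      have h4 : (d : ℤ) ∣ 2 := by
        have : (k + 1) - (k - 1) = 2 := by ring
        rwa [this] at h3
      have := Int.le_of_dvd (by norm_num) h4
      omega
    · simp [h1, h2]
  · by_cases h2 : (d : ℤ) ∣ k + 1
    · simp [h1, h2]
    · simp [h1, h2]

lemma phi_add (d : ℕ) (k a : ℤ) (ha : (d : ℤ) ∣ a) : phi d (a + k) = phi d k := by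
  unfold phi
  have e1 : (d : ℤ) ∣ a + k - 1 ↔ (d : ℤ) ∣ k - 1 := by
    rw [show a + k - 1 = a + (k - 1) by ring]
    exact (Int.dvd_add_right ha)
  have e2 : (d : ℤ) ∣ a + k + 1 ↔ (d : ℤ) ∣ k + 1 := by
    rw [show a + k + 1 = a + (k + 1) by ring]
    exact (Int.dvd_add_right ha)
  rw [if_congr e1 rfl rfl, if_congr e2 rfl rfl]

lemma phi_reflect (d : ℕ) (hd : 3 ≤ d) (k a : ℤ) (ha : (d : ℤ) ∣ a) :
    phi d (a - k) = - phi d k := by
  rw [sub_eq_add_neg, phi_add d _ a ha, phi_neg d hd]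

lemma abs_phi_le (d : ℕ) (k : ℤ) : |phi d k| ≤ 1 := by
  unfold phi
  split_ifs <;> simp

lemma phi_zero (d : ℕ) (hd : 3 ≤ d) : phi d 0 = 0 := by
  have := phi_neg d hd 0
  simp at this
  omega

/-- The truncated sequence. -/
def cseq (d N : ℕ) (k : ℤ) : ℂ := if k ∈ Finset.Icc (-(N : ℤ)) N then (phi d k : ℂ) else 0

lemma support_cseq (d N : ℕ) : Function.support (cseq d N) ⊆ (Finset.Icc (-(N : ℤ)) N : Set ℤ) := by
  intro k hk
  by_contra h
  apply hk
  unfold cseq
  rw [if_neg]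
  simpa using h

lemma beam_line (d N : ℕ) (hd : 3 ≤ d) (a : ℤ) (t : ℝ) :
    beam (cseq d N) 0 (0 + t) (0 - a * t) =
      ∑ k ∈ Finset.Icc (-(N : ℤ)) N, (phi d k : ℂ) *
        Complex.exp (Complex.I * ((k ^ 2 - a * k : ℤ) : ℂ) * t) := by
  unfold beam
  have h0 : cseq d N 0 = 0 := by
    unfold cseq
    rw [phi_zero d hd]
    simp
  rw [h0]
  simp only [Pi.zero_apply, zero_mul, zero_add, add_zero]
  rw [tsum_eq_sum (s := Finset.Icc (-(N : ℤ)) N)]
  · apply Finset.sum_congr rfl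
    intro k hk
    by_cases hk0 : k = 0
    · subst hk0
      rw [if_pos rfl, phi_zero d hd]
      simp
    · rw [if_neg hk0, cseq, if_pos hk, mul_assoc, ← Complex.exp_add]
      congr 2
      push_cast
      ring
  · intro k hk
    by_cases hk0 : k = 0
    · rw [if_pos hk0]
    · rw [if_neg hk0, cseq, if_neg hk]
      simp

lemma norm_line_le (d N : ℕ) (hd : 3 ≤ d) (a : ℤ) (ha : (d : ℤ) ∣ a) (t : ℝ) :
    ‖beam (cseq d N) 0 (0 + t) (0 - a * t)‖ ≤ |(a : ℝ)| := by
  classical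
  rw [beam_line d N hd]
  set f : ℤ → ℂ := fun k => (phi d k : ℂ) *
        Complex.exp (Complex.I * ((k ^ 2 - a * k : ℤ) : ℂ) * t) with hf
  have hodd : ∀ k, f (a - k) = - f k := by
    intro k
    simp only [hf]
    rw [phi_reflect d hd k a ha]
    have : (a - k) ^ 2 - a * (a - k) = k ^ 2 - a * k := by ring
    rw [this]
    push_cast
    ring
  have hnorm : ∀ k, ‖f k‖ ≤ 1 := by
    intro k
    simp only [hf]
    rw [norm_mul, show Complex.I * ((k ^ 2 - a * k : ℤ) : ℂ) * t =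
      (((k ^ 2 - a * k : ℤ) * t : ℝ) : ℂ) * Complex.I by push_cast; ring,
      Complex.norm_exp_ofReal_mul_I, mul_one]
    have := abs_phi_le d k
    rw [Complex.norm_intCast]
    exact_mod_cast this
  set s := Finset.Icc (-(N : ℤ)) N with hs
  rw [← Finset.sum_filter_add_sum_filter_not s (fun k => a - k ∈ s)]
  have hzero : ∑ k ∈ s with a - k ∈ s, f k = 0 := by
    have h1 : ∑ k ∈ s with a - k ∈ s, f k = ∑ k ∈ s with a - k ∈ s, f (a - k) := by
      apply Finset.sum_nbij' (fun k => a - k) (fun k => a - k)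
      · intro k hk
        rw [Finset.mem_filter] at hk ⊢
        exact ⟨hk.2, by rw [sub_sub_cancel]; exact hk.1⟩
      · intro k hk
        rw [Finset.mem_filter] at hk ⊢
        exact ⟨hk.2, by rw [sub_sub_cancel]; exact hk.1⟩
      · intro k _
        ring
      · intro k _
        ring
      · intro k _
        rw [sub_sub_cancel]
    have h2 : ∑ k ∈ s with a - k ∈ s, f (a - k) = - ∑ k ∈ s with a - k ∈ s, f k := by
      rw [← Finset.sum_neg_distrib]
      exact Finset.sum_congr rfl (fun k _ => hodd k)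
    rw [h2] at h1
    exact self_eq_neg.1 h1
  rw [hzero, zero_add]
  have hcard : (((s.filter (fun k => ¬ a - k ∈ s)).card : ℕ) : ℝ) ≤ |(a : ℝ)| := by
    have hsub : s.filter (fun k => ¬ a - k ∈ s) ⊆
        Finset.Icc (-(N : ℤ)) (a - N - 1) ∪ Finset.Icc (a + N + 1) N := by
      intro k hk
      rw [Finset.mem_filter, hs, Finset.mem_Icc, Finset.mem_Icc] at hk
      rw [Finset.mem_union, Finset.mem_Icc, Finset.mem_Icc]
      obtain ⟨⟨h1, h2⟩, h3⟩ := hk
      by_cases h4 : k ≤ a - N - 1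
      · left; exact ⟨h1, h4⟩
      · right
        refine ⟨?_, h2⟩
        by_contra h5
        apply h3
        constructor <;> omega
    have h6 := (Finset.card_le_card hsub).trans (Finset.card_union_le _ _)
    rw [Int.card_Icc, Int.card_Icc] at h6
    have h7 : (s.filter (fun k => ¬ a - k ∈ s)).card ≤ a.natAbs := by omega
    calc (((s.filter (fun k => ¬ a - k ∈ s)).card : ℕ) : ℝ) ≤ (a.natAbs : ℝ) := by exact_mod_cast h7
      _ = |(a : ℝ)| := by rw [Nat.cast_natAbs]; push_cast; rfl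
  calc ‖∑ k ∈ s with ¬ a - k ∈ s, f k‖ ≤ ∑ k ∈ s with ¬ a - k ∈ s, ‖f k‖ := norm_sum_le _ _
    _ ≤ ∑ k ∈ s with ¬ a - k ∈ s, (1 : ℝ) := Finset.sum_le_sum (fun k _ => hnorm k)
    _ = (((s.filter (fun k => ¬ a - k ∈ s)).card : ℕ) : ℝ) := by simp
    _ ≤ |(a : ℝ)| := hcard

lemma energy_ge (d n : ℕ) (hd : 3 ≤ d) :
    (n : ℝ) ≤ ∑' k : ℤ, (‖cseq d (d * n) k‖ ^ 2 + ‖(0 : ℤ → ℂ) k‖ ^ 2) := by
  classical
  rw [tsum_eq_sum (s := Finset.Icc (-((d * n : ℕ) : ℤ)) ((d * n : ℕ) : ℤ))]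
  · have hinj : Set.InjOn (fun j : ℕ => (1 + d * j : ℤ)) (Finset.range n : Set ℕ) := by
      intro i _ j _ h
      have h' : (1 : ℤ) + d * i = 1 + d * j := h
      have hd' : (d : ℤ) ≠ 0 := by omega
      have : (d : ℤ) * i = d * j := by linarith
      exact_mod_cast mul_left_cancel₀ hd' this
    have hsub : (Finset.range n).image (fun j : ℕ => (1 + d * j : ℤ)) ⊆
        Finset.Icc (-((d * n : ℕ) : ℤ)) ((d * n : ℕ) : ℤ) := by
      intro k hk
      rw [Finset.mem_image] at hk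
      obtain ⟨j, hj, rfl⟩ := hk
      rw [Finset.mem_range] at hj
      rw [Finset.mem_Icc]
      have h1 : d * (j + 1) ≤ d * n := Nat.mul_le_mul_left d hj
      have h2 : d * (j + 1) = d * j + d := by ring
      constructor
      · push_cast
        have : (0 : ℤ) ≤ (d : ℤ) * n := by positivity
        have : (0 : ℤ) ≤ (d : ℤ) * j := by positivity
        linarith
      · push_cast
        zify at h1 h2 hd
        linarith
    calc (n : ℝ) = ∑ _j ∈ Finset.range n, (1 : ℝ) := by simp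
      _ = ∑ j ∈ Finset.range n, (‖cseq d (d * n) (1 + d * j)‖ ^ 2 +
            ‖(0 : ℤ → ℂ) (1 + d * j)‖ ^ 2) := by
          apply Finset.sum_congr rfl
          intro j hj
          have hmem : (1 + d * j : ℤ) ∈ Finset.Icc (-((d * n : ℕ) : ℤ)) ((d * n : ℕ) : ℤ) :=
            hsub (Finset.mem_image_of_mem _ hj)
          rw [cseq, if_pos hmem]
          have : phi d (1 + d * j) = 1 := by
            unfold phi
            rw [if_pos]
            exact ⟨j, by ring⟩
          rw [this]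
          simp
      _ = ∑ k ∈ (Finset.range n).image (fun j : ℕ => (1 + d * j : ℤ)),
            (‖cseq d (d * n) k‖ ^ 2 + ‖(0 : ℤ → ℂ) k‖ ^ 2) := by
          rw [Finset.sum_image (fun a ha b hb h => hinj ha hb h)]
      _ ≤ _ := Finset.sum_le_sum_of_subset_of_nonneg hsub (fun _ _ _ => by positivity)
  · intro k hk
    rw [cseq, if_neg hk]
    simp

/-- The inverse inequality fails for every finite family of integer speeds having a common divisor
`d ≥ 3`, all lines being taken through the origin, for every `T > 0`. -/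
theorem fails_of_dvd {m : ℕ} (a : Fin m → ℤ) (d : ℕ) (hd : 3 ≤ d) (ha : ∀ i, (d : ℤ) ∣ a i)
    (T : ℝ) (hT : 0 < T) : ¬ InverseInequality a (fun _ => (0, 0)) T := by
  rintro ⟨C, hC, h⟩
  set R : ℝ := C * ∑ i : Fin m, T * |(a i : ℝ)| ^ 2 with hR
  obtain ⟨n, hn⟩ := exists_nat_gt R
  have h1 := h (cseq d (d * n)) 0
    ((Finset.finite_toSet _).subset (support_cseq d (d * n))) (by simp)
  have h2 := energy_ge d n hd
  have h3 : ∑ i : Fin m, ∫ t in (0 : ℝ)..T,
      ‖beam (cseq d (d * n)) 0 (((0 : ℝ), (0 : ℝ)).1 + t) (((0 : ℝ), (0 : ℝ)).2 - a i * t)‖ ^ 2 ≤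
      ∑ i : Fin m, T * |(a i : ℝ)| ^ 2 := by
    apply Finset.sum_le_sum
    intro i _
    have h4 : ‖∫ t in (0 : ℝ)..T,
      ‖beam (cseq d (d * n)) 0 (((0 : ℝ), (0 : ℝ)).1 + t) (((0 : ℝ), (0 : ℝ)).2 - a i * t)‖ ^ 2‖
        ≤ |(a i : ℝ)| ^ 2 * |T - 0| := by
      apply intervalIntegral.norm_integral_le_of_norm_le_const
      intro t _
      rw [Real.norm_eq_abs, abs_of_nonneg (by positivity)]
      exact pow_le_pow_left₀ (norm_nonneg _) (norm_line_le d (d * n) hd (a i) (ha i) t) 2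
    rw [sub_zero, abs_of_pos hT] at h4
    calc _ ≤ _ := le_abs_self _
      _ ≤ |(a i : ℝ)| ^ 2 * T := h4
      _ = _ := by ring
  have h5 : (n : ℝ) ≤ R := by
    rw [hR]
    exact h2.trans (h1.trans (by gcongr))
  linarith

/-- **Main theorem.** For every `m` there are pairwise distinct nonzero integers `a₁, …, a_m` such
that, with all the lines through the origin, the inverse inequality fails for every `T > 0`. -/
theorem result (m : ℕ) : ∃ a : Fin m → ℤ, Function.Injective a ∧ (∀ i, a i ≠ 0) ∧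
    ∀ T : ℝ, 0 < T → ¬ InverseInequality a (fun _ => (0, 0)) T := by
  refine ⟨fun i => 3 * ((i : ℤ) + 1), ?_, ?_, ?_⟩
  · intro i j h
    have : (3 : ℤ) * ((i : ℤ) + 1) = 3 * ((j : ℤ) + 1) := h
    have : (i : ℤ) = (j : ℤ) := by linarith
    exact Fin.ext (by exact_mod_cast this)
  · intro i
    have : (0 : ℤ) ≤ (i : ℤ) := by positivity
    show (3 : ℤ) * ((i : ℤ) + 1) ≠ 0
    omega
  · intro T hT
    exact fails_of_dvd _ 3 le_rfl (fun i => ⟨(i : ℤ) + 1, rfl⟩) T hT

end Pool.Agent.Results.MP_8d8cf3_an.NoUniversalNumberOfLines
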